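import Pool.Agent.Helper17.SL.GoalsB

/-!
# Project SL, packet LA
-/

set_option autoImplicit false

namespace Pool.Agent.Helper17.SL.PkLA

open Pool.Agent.Helper17.SL NumberField Module

universe u v

section

variable {E : Type u} [Field E] [NumberField E] {Ω : Type v} [Field Ω] [CharZero Ω]

theorem conjX_apply (lam : E →+* Ω) (d : ℕ) (q : {σ : E →+* Ω // σ ≠ lam} × Fin d)
    (a : Fin d → E) : conjX lam d q a = q.1.1 (a q.2) := rfl

theorem mem_spanX {V : Type*} [AddCommGroup V] [Module ℚ V] {I : Type*}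
    (X : I → V →ₗ[ℚ] Ω) (A : Submodule ℚ V) {v : V} (hv : v ∈ A) :
    (fun i ↦ X i v) ∈ spanX X A := Submodule.subset_span ⟨v, hv, rfl⟩

theorem spanX_le {V : Type*} [AddCommGroup V] [Module ℚ V] {I : Type*}
    (X : I → V →ₗ[ℚ] Ω) (A : Submodule ℚ V) (S : Submodule Ω (I → Ω))
    (h : ∀ v ∈ A, (fun i ↦ X i v) ∈ S) : spanX X A ≤ S := by
  refine Submodule.span_le.2 ?_
  rintro _ ⟨v, hv, rfl⟩
  exact h v hv

theorem spanX_mono {V : Type*} [AddCommGroup V] [Module ℚ V] {I : Type*}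
    (X : I → V →ₗ[ℚ] Ω) {A B : Submodule ℚ V} (h : A ≤ B) : spanX X A ≤ spanX X B :=
  spanX_le X A _ fun _ hv ↦ mem_spanX X B (h hv)

theorem spanX_sup {V : Type*} [AddCommGroup V] [Module ℚ V] {I : Type*}
    (X : I → V →ₗ[ℚ] Ω) (A B : Submodule ℚ V) : spanX X (A ⊔ B) ≤ spanX X A ⊔ spanX X B := by
  refine spanX_le X _ _ fun v hv ↦ ?_
  obtain ⟨a, ha, b, hb, rfl⟩ := Submodule.mem_sup.1 hv
  have h : (fun i ↦ X i (a + b)) = (fun i ↦ X i a) + fun i ↦ X i b := by
    funext i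
    simp
  rw [h]
  exact Submodule.add_mem_sup (mem_spanX X A ha) (mem_spanX X B hb)

theorem submod {V : Type*} [AddCommGroup V] [Module ℚ V] {I : Type*} [Finite I]
    (X : I → V →ₗ[ℚ] Ω) (A B : Submodule ℚ V) :
    finrank Ω (spanX X (A ⊔ B)) + finrank Ω (spanX X (A ⊓ B)) ≤
      finrank Ω (spanX X A) + finrank Ω (spanX X B) := by
  rw [← Submodule.finrank_sup_add_finrank_inf_eq (spanX X A) (spanX X B)]
  refine Nat.add_le_add (Submodule.finrank_mono (spanX_sup X A B)) (Submodule.finrank_mono ?_)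
  exact le_inf (spanX_mono X inf_le_left) (spanX_mono X inf_le_right)

/-- multiplication by the conjugates of `c` -/
noncomputable def dg (lam : E →+* Ω) (d : ℕ) (c : E) :
    ({σ : E →+* Ω // σ ≠ lam} × Fin d → Ω) →ₗ[Ω] ({σ : E →+* Ω // σ ≠ lam} × Fin d → Ω) where
  toFun z q := q.1.1 c * z q
  map_add' z z' := by
    funext q
    simp [mul_add]
  map_smul' a z := by
    funext q
    simp [mul_left_comm]

theorem dg_inj (lam : E →+* Ω) (d : ℕ) {c : E} (hc : c ≠ 0) : Function.Injective (dg lam d c) := by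
  rw [← LinearMap.ker_eq_bot, LinearMap.ker_eq_bot']
  intro z hz
  funext q
  have h : q.1.1 c * z q = 0 := congrFun hz q
  rcases mul_eq_zero.1 h with h | h
  · exact absurd ((map_eq_zero q.1.1).1 h) hc
  · exact h

theorem spanX_smul (lam : E →+* Ω) (d : ℕ) (c : E) (A : Submodule ℚ (Fin d → E)) :
    spanX (conjX lam d) (A.map ((LinearMap.lsmul E (Fin d → E) c).restrictScalars ℚ)) =
      (spanX (conjX lam d) A).map (dg lam d c) := by
  refine le_antisymm (spanX_le _ _ _ ?_) ?_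
  · rintro _ ⟨v, hv, rfl⟩
    refine ⟨_, mem_spanX _ A hv, ?_⟩
    funext q
    change q.1.1 c * q.1.1 (v q.2) = q.1.1 (c * v q.2)
    rw [map_mul]
  · rw [Submodule.map_le_iff_le_comap]
    refine spanX_le _ _ _ fun v hv ↦ ?_
    rw [Submodule.mem_comap]
    have h : dg lam d c (fun q ↦ conjX lam d q v) = fun q ↦ conjX lam d q (c • v) := by
      funext q
      change q.1.1 c * q.1.1 (v q.2) = q.1.1 (c * v q.2)
      rw [map_mul]
    rw [h]
    exact mem_spanX _ _ ⟨v, hv, rfl⟩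

theorem invar (lam : E →+* Ω) (d : ℕ) (c : E) (A : Submodule ℚ (Fin d → E)) (hc : c ≠ 0) :
    finrank Ω (spanX (conjX lam d)
      (A.map ((LinearMap.lsmul E (Fin d → E) c).restrictScalars ℚ))) =
      finrank Ω (spanX (conjX lam d) A) := by
  rw [spanX_smul]
  exact LinearEquiv.finrank_eq (Submodule.equivMapOfInjective _ (dg_inj lam d hc) _).symm

/-- the vectors of conjugates span the whole space -/
theorem span_conj (lam : E →+* Ω) :
    Submodule.span Ω (Set.range fun (c : E) (σ : {σ : E →+* Ω // σ ≠ lam}) ↦ σ.1 c) = ⊤ := by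
  classical
  by_contra hne
  obtain ⟨f, hf0, hf⟩ := Submodule.exists_le_ker_of_lt_top _ (lt_top_iff_ne_top.2 hne)
  apply hf0
  have h1 : ∀ z : {σ : E →+* Ω // σ ≠ lam} → Ω, f z = ∑ σ, f (Pi.single σ 1) * z σ := by
    intro z
    have h2 : z = ∑ σ, z σ • (Pi.single σ (1 : Ω) : {σ : E →+* Ω // σ ≠ lam} → Ω) := by
      funext τ
      simp [Finset.sum_apply, Pi.single_apply]
    conv_lhs => rw [h2]
    rw [map_sum]
    exact Finset.sum_congr rfl fun σ _ ↦ by rw [map_smul, smul_eq_mul, mul_comm]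
  have hli : LinearIndependent Ω (fun σ : {σ : E →+* Ω // σ ≠ lam} ↦ (fun c : E ↦ σ.1 c)) := by
    have h3 := linearIndependent_monoidHom E Ω
    refine h3.comp (fun σ : {σ : E →+* Ω // σ ≠ lam} ↦ (σ.1 : E →* Ω)) ?_
    intro σ τ h
    exact Subtype.ext (RingHom.ext fun c ↦ DFunLike.congr_fun h c)
  rw [Fintype.linearIndependent_iff] at hli
  have h4 := hli (fun σ ↦ f (Pi.single σ 1)) (by
    funext c
    have h5 : f (fun σ : {σ : E →+* Ω // σ ≠ lam} ↦ σ.1 c) = 0 :=
      hf (Submodule.subset_span ⟨c, rfl⟩)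
    rw [h1] at h5
    simpa [Finset.sum_apply] using h5)
  refine LinearMap.ext fun z ↦ ?_
  rw [h1]
  simp [h4]

/-- the contribution of a family of vectors -/
noncomputable def PP (lam : E →+* Ω) (d : ℕ) {ι : Type*} [Fintype ι] (w : ι → Fin d → E) :
    (ι → {σ : E →+* Ω // σ ≠ lam} → Ω) →ₗ[Ω] ({σ : E →+* Ω // σ ≠ lam} × Fin d → Ω) where
  toFun z q := ∑ i, z i q.1 * q.1.1 (w i q.2)
  map_add' z z' := by
    funext q
    simp [add_mul, Finset.sum_add_distrib]
  map_smul' a z := by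
    funext q
    simp [Finset.mul_sum, mul_assoc]

theorem PP_inj (lam : E →+* Ω) (d : ℕ) {ι : Type*} [Fintype ι] [DecidableEq ι]
    (w : ι → Fin d → E)
    (g : ι → Fin d → E) (hg : ∀ i j, ∑ κ, g i κ * w j κ = if i = j then 1 else 0) :
    Function.Injective (PP lam d w) := by
  rw [← LinearMap.ker_eq_bot, LinearMap.ker_eq_bot']
  intro z hz
  funext i σ
  have h1 : ∀ κ, ∑ j, z j σ * σ.1 (w j κ) = 0 := fun κ ↦ congrFun hz (σ, κ)
  have h2 : ∑ κ, σ.1 (g i κ) * ∑ j, z j σ * σ.1 (w j κ) = 0 := by simp [h1]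
  have h3 : ∑ κ, σ.1 (g i κ) * ∑ j, z j σ * σ.1 (w j κ) =
      ∑ j, z j σ * σ.1 (∑ κ, g i κ * w j κ) := by
    simp only [Finset.mul_sum, map_sum, map_mul]
    rw [Finset.sum_comm]
    exact Finset.sum_congr rfl fun j _ ↦ Finset.sum_congr rfl fun κ _ ↦ by ring
  rw [h3] at h2
  simp only [hg] at h2
  simpa using h2

theorem PP_le (lam : E →+* Ω) (d : ℕ) {ι : Type*} [Fintype ι] [DecidableEq ι]
    (A : Submodule E (Fin d → E)) (w : ι → Fin d → E) (hw : ∀ i, w i ∈ A) :
    LinearMap.range (PP lam d w) ≤ spanX (conjX lam d) (A.restrictScalars ℚ) := by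
  rintro _ ⟨z, rfl⟩
  have h1 : ∀ (i : ι) (y : {σ : E →+* Ω // σ ≠ lam} → Ω),
      (fun q : {σ : E →+* Ω // σ ≠ lam} × Fin d ↦ y q.1 * q.1.1 (w i q.2)) ∈
        spanX (conjX lam d) (A.restrictScalars ℚ) := by
    intro i y
    have hy : y ∈ Submodule.span Ω
        (Set.range fun (c : E) (σ : {σ : E →+* Ω // σ ≠ lam}) ↦ σ.1 c) := by
      rw [span_conj]; trivial
    induction hy using Submodule.span_induction with
    | mem x hx =>
      obtain ⟨c, rfl⟩ := hx
      have h2 : (fun q : {σ : E →+* Ω // σ ≠ lam} × Fin d ↦ q.1.1 c * q.1.1 (w i q.2)) =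
          fun q ↦ conjX lam d q (c • w i) := by
        funext q
        rw [conjX_apply, Pi.smul_apply, smul_eq_mul, map_mul]
      rw [h2]
      exact mem_spanX _ _ (A.smul_mem c (hw i))
    | zero =>
      have h2 : (fun q : {σ : E →+* Ω // σ ≠ lam} × Fin d ↦
          (0 : {σ : E →+* Ω // σ ≠ lam} → Ω) q.1 * q.1.1 (w i q.2)) = 0 := by
        funext q; simp
      rw [h2]
      exact Submodule.zero_mem _
    | add a b _ _ ha hb =>
      have h2 : (fun q : {σ : E →+* Ω // σ ≠ lam} × Fin d ↦ (a + b) q.1 * q.1.1 (w i q.2)) =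
          (fun q ↦ a q.1 * q.1.1 (w i q.2)) + fun q ↦ b q.1 * q.1.1 (w i q.2) := by
        funext q; simp [add_mul]
      rw [h2]
      exact Submodule.add_mem _ ha hb
    | smul c a _ ha =>
      have h2 : (fun q : {σ : E →+* Ω // σ ≠ lam} × Fin d ↦ (c • a) q.1 * q.1.1 (w i q.2)) =
          c • (fun q ↦ a q.1 * q.1.1 (w i q.2)) := by
        funext q; simp [mul_assoc]
      rw [h2]
      exact Submodule.smul_mem _ _ ha
  have h3 : PP lam d w z = ∑ i, fun q : {σ : E →+* Ω // σ ≠ lam} × Fin d ↦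
      z i q.1 * q.1.1 (w i q.2) := by
    funext q
    simp [PP, Finset.sum_apply]
  rw [h3]
  exact Submodule.sum_mem _ fun i _ ↦ h1 i (z i)

theorem esub [IsAlgClosed Ω] (lam : E →+* Ω) (d : ℕ) (A : Submodule E (Fin d → E)) :
    (finrank ℚ E - 1) * finrank ℚ (A.restrictScalars ℚ) ≤
      finrank ℚ E * finrank Ω (spanX (conjX lam d) (A.restrictScalars ℚ)) := by
  classical
  have hA : finrank ℚ (A.restrictScalars ℚ) = finrank ℚ E * finrank E A :=
    (finrank_mul_finrank ℚ E A).symm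
  set b := finBasis E A with hb
  set w : Fin (finrank E A) → Fin d → E := fun i ↦ (b i : Fin d → E) with hw
  have hg : ∃ g : Fin (finrank E A) → Fin d → E,
      ∀ i j, ∑ κ, g i κ * w j κ = if i = j then 1 else 0 := by
    have h1 : ∀ i, ∃ h : (Fin d → E) →ₗ[E] E, h ∘ₗ A.subtype = b.coord i := fun i ↦
      LinearMap.exists_extend (b.coord i)
    choose h hh using h1
    refine ⟨fun i κ ↦ h i (Pi.single κ 1), fun i j ↦ ?_⟩
    have h2 : w j = ∑ κ, w j κ • (Pi.single κ (1 : E) : Fin d → E) := by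
      funext τ
      simp [Finset.sum_apply, Pi.single_apply]
    have h3 : h i (w j) = ∑ κ, h i (Pi.single κ 1) * w j κ := by
      conv_lhs => rw [h2]
      rw [map_sum]
      exact Finset.sum_congr rfl fun κ _ ↦ by rw [map_smul, smul_eq_mul, mul_comm]
    rw [← h3]
    have h4 : h i (w j) = b.coord i (b j) := by
      rw [← hh i]; rfl
    rw [h4, Basis.coord_apply, Basis.repr_self, Finsupp.single_apply]
    simp only [eq_comm]
  obtain ⟨g, hg⟩ := hg
  have h1 : finrank Ω (LinearMap.range (PP lam d w)) = finrank E A * (finrank ℚ E - 1) := by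
    rw [LinearMap.finrank_range_of_inj (PP_inj lam d w g hg), Module.finrank_pi_fintype]
    simp only [Module.finrank_fintype_fun_eq_card, Finset.sum_const, Finset.card_univ,
      Fintype.card_fin, smul_eq_mul]
    congr 1
    rw [← NumberField.Embeddings.card E Ω]
    exact Fintype.card_subtype_compl (fun σ : E →+* Ω ↦ σ = lam) |>.trans (by simp)
  have h2 : finrank E A * (finrank ℚ E - 1) ≤
      finrank Ω (spanX (conjX lam d) (A.restrictScalars ℚ)) := by
    rw [← h1]
    exact Submodule.finrank_mono (PP_le lam d A w fun i ↦ (b i).2)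
  rw [hA]
  calc (finrank ℚ E - 1) * (finrank ℚ E * finrank E A)
      = finrank ℚ E * (finrank E A * (finrank ℚ E - 1)) := by ring
    _ ≤ _ := Nat.mul_le_mul_left _ h2

end

/-- PACKET LA -/
theorem thm (h1 : S_SUB.{u, u}) : S_LA.{u, v} := by
  intro E _ _ Ω _ _ _ lam d A
  exact h1 E (Fin d → E) (fun A ↦ finrank Ω (spanX (conjX lam d) A)) (finrank ℚ E - 1)
    (finrank ℚ E) (fun A B ↦ submod _ A B) (fun c A hc ↦ invar lam d c A hc)
    (fun A ↦ esub lam d A) A

end Pool.Agent.Helper17.SL.PkLA
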